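import Pool.Agent.Helper10.RS.Goals2

/-!
# Project RS, packet PSLC
-/

set_option autoImplicit false

open Finset

namespace Pool.Agent.Helper50.RS

open Pool.Agent.Helper10.RS

/-- `SL_2(p)` -/
abbrev SS (p : ℕ) := Matrix.SpecialLinearGroup (Fin 2) (ZMod p)

/-- the element of order four -/
def JJ (p : ℕ) : SS p := ⟨!![0, 1; -1, 0], by simp [Matrix.det_fin_two]⟩

theorem card_SL (p : ℕ) (hp : p.Prime) : Nat.card (SS p) = p * (p ^ 2 - 1) := by
  have : Fact p.Prime := ⟨hp⟩
  have h1 : Nat.card (GL (Fin 2) (ZMod p)) = (p ^ 2 - 1) * (p ^ 2 - p) := by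
    rw [Matrix.card_GL_field]
    simp [Fin.prod_univ_two, ZMod.card]
  have hsurj : Function.Surjective (Matrix.GeneralLinearGroup.det (n := Fin 2) (R := ZMod p)) := by
    intro u
    refine ⟨Matrix.GeneralLinearGroup.mkOfDetNeZero !![(u : ZMod p), 0; 0, 1] (by
      rw [Matrix.det_fin_two]
      simp), ?_⟩
    ext
    simp [Matrix.GeneralLinearGroup.mkOfDetNeZero, Matrix.det_fin_two]
  have h2 := (Matrix.GeneralLinearGroup.det (n := Fin 2) (R := ZMod p)).ker.card_mul_index
  rw [Subgroup.index_ker, MonoidHom.range_eq_top.2 hsurj, h1] at h2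
  have h3 : Nat.card (⊤ : Subgroup (ZMod p)ˣ) = p - 1 := by
    rw [Subgroup.card_top, Nat.card_eq_fintype_card, ZMod.card_units_eq_totient,
      Nat.totient_prime hp]
  have h4 : Nat.card (Matrix.GeneralLinearGroup.det (n := Fin 2) (R := ZMod p)).ker
      = Nat.card (SS p) := by
    refine (Nat.card_congr (Equiv.ofBijective (fun A : SS p =>
      (⟨Matrix.SpecialLinearGroup.toGL A, ?_⟩ :
        (Matrix.GeneralLinearGroup.det (n := Fin 2) (R := ZMod p)).ker)) ⟨?_, ?_⟩)).symm
    · rw [MonoidHom.mem_ker]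
      ext
      simp
    · intro A B h
      have h := congrArg Subtype.val h
      exact Matrix.SpecialLinearGroup.toGL_injective h
    · rintro ⟨M, hM⟩
      rw [MonoidHom.mem_ker] at hM
      have hM' : (M : Matrix (Fin 2) (Fin 2) (ZMod p)).det = 1 := by
        have := congrArg Units.val hM
        simpa using this
      refine ⟨⟨M, hM'⟩, ?_⟩
      apply Subtype.ext
      ext i j
      simp
  rw [h3, h4] at h2
  have hp1 : 0 < p - 1 := by have := hp.two_le; omega
  have h5 : (p ^ 2 - 1) * (p ^ 2 - p) = p * (p ^ 2 - 1) * (p - 1) := by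
    have : p ^ 2 - p = p * (p - 1) := by rw [Nat.mul_sub, mul_one, sq]
    rw [this]
    ring
  rw [h5] at h2
  exact Nat.eq_of_mul_eq_mul_right hp1 h2

theorem JJ_sq (p : ℕ) : ((JJ p * JJ p : SS p) : Matrix (Fin 2) (Fin 2) (ZMod p)) = -1 := by
  ext i j
  fin_cases i <;> fin_cases j <;> simp [JJ, Matrix.mul_apply]

theorem center_iff (p : ℕ) (hp : p.Prime) (A : SS p) :
    A ∈ Subgroup.center (SS p) ↔ A = 1 ∨ A = JJ p * JJ p := by
  have : Fact p.Prime := ⟨hp⟩
  rw [Matrix.SpecialLinearGroup.mem_center_iff]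
  constructor
  · rintro ⟨r, hr, hA⟩
    rw [Fintype.card_fin] at hr
    have hr' : (r - 1) * (r + 1) = 0 := by linear_combination hr
    rcases mul_eq_zero.1 hr' with h | h
    · left
      apply Subtype.ext
      rw [← hA, sub_eq_zero.1 h]
      simp
    · right
      apply Subtype.ext
      rw [JJ_sq, ← hA, eq_neg_of_add_eq_zero_left h]
      ext i j
      fin_cases i <;> fin_cases j <;> simp
  · rintro (h | h)
    · exact ⟨1, by simp, by rw [h]; simp⟩
    · refine ⟨-1, by simp, ?_⟩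
      rw [h, JJ_sq]
      ext i j
      fin_cases i <;> fin_cases j <;> simp

theorem JJ_sq_ne (p : ℕ) (h5 : 5 ≤ p) : JJ p * JJ p ≠ 1 := by
  intro h
  have h1 := congrArg (fun A : SS p => (A : Matrix (Fin 2) (Fin 2) (ZMod p)) 0 0) h
  simp only [JJ_sq] at h1
  have h2 : (-1 : ZMod p) = 1 := by simpa using h1
  have h3 : ((2 : ℕ) : ZMod p) = 0 := by
    push_cast
    linear_combination -h2
  rw [ZMod.natCast_eq_zero_iff] at h3
  have := Nat.le_of_dvd (by norm_num) h3
  omega

theorem card_center (p : ℕ) (hp : p.Prime) (h5 : 5 ≤ p) :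
    Nat.card (Subgroup.center (SS p)) = 2 := by
  rw [Nat.card_eq_two_iff]
  refine ⟨⟨1, (center_iff p hp 1).2 (Or.inl rfl)⟩, ⟨JJ p * JJ p, (center_iff p hp _).2
    (Or.inr rfl)⟩, ?_, ?_⟩
  · intro h
    exact JJ_sq_ne p h5 (congrArg Subtype.val h).symm
  · ext ⟨A, hA⟩
    simp only [Set.mem_insert_iff, Set.mem_singleton_iff, Set.mem_univ, iff_true,
      Subtype.mk.injEq]
    exact (center_iff p hp A).1 hA

theorem card_PSL (p : ℕ) (hp : p.Prime) (h5 : 5 ≤ p) :
    2 * Nat.card (PSL2 p) = p * (p ^ 2 - 1) := by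
  have h := (Subgroup.center (SS p)).card_eq_card_quotient_mul_card_subgroup
  rw [card_SL p hp, card_center p hp h5] at h
  rw [h, mul_comm]

/-- the map to `PSL_2(p)` -/
def mk (p : ℕ) (g : SS p) : PSL2 p := QuotientGroup.mk g

theorem mk_mul (p : ℕ) (g h : SS p) : mk p (g * h) = mk p g * mk p h := rfl

theorem mk_inv (p : ℕ) (g : SS p) : mk p g⁻¹ = (mk p g)⁻¹ := rfl

theorem order_J (p : ℕ) (hp : p.Prime) (h5 : 5 ≤ p) : orderOf (mk p (JJ p)) = 2 := by
  refine orderOf_eq_prime ?_ ?_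
  · rw [sq, ← mk_mul]
    exact (QuotientGroup.eq_one_iff _).2 ((center_iff p hp _).2 (Or.inr rfl))
  · intro h
    have h1 := (center_iff p hp _).1 ((QuotientGroup.eq_one_iff _).1 h)
    rcases h1 with h1 | h1
    · exact JJ_sq_ne p h5 (by rw [h1, one_mul])
    · exact JJ_sq_ne p h5 (by
        have : JJ p = 1 := by simpa using h1.symm
        rw [this, one_mul])

/-- elements of odd order of the centralizer of `J` -/
theorem odd_le (p : ℕ) (hp : p.Prime) (h5 : 5 ≤ p) :
    Nat.card {c : SS p // c * JJ p = JJ p * c} ≤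
      2 * Nat.card {c : SS p // c * JJ p = JJ p * c ∧ 2 ∣ orderOf (mk p c)} := by
  have : Fact p.Prime := ⟨hp⟩
  have h1 : Nat.card {c : SS p // c * JJ p = JJ p * c} ≤
      Nat.card ({c : SS p // c * JJ p = JJ p * c ∧ 2 ∣ orderOf (mk p c)} ⊕
        {c : SS p // c * JJ p = JJ p * c ∧ 2 ∣ orderOf (mk p c)}) := by
    classical
    refine Nat.card_le_card_of_injective (fun c => if h : 2 ∣ orderOf (mk p c.1) then
      Sum.inl ⟨c.1, c.2, h⟩ else Sum.inr ⟨c.1 * JJ p, ?_, ?_⟩) ?_
    · rw [c.2, mul_assoc, c.2]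
    · have hc : Commute (mk p c.1) (mk p (JJ p)) := by
        show mk p c.1 * mk p (JJ p) = mk p (JJ p) * mk p c.1
        rw [← mk_mul, ← mk_mul, c.2]
      have hco : (orderOf (mk p c.1)).Coprime (orderOf (mk p (JJ p))) := by
        rw [order_J p hp h5, Nat.coprime_comm]
        exact (Nat.Prime.coprime_iff_not_dvd Nat.prime_two).2 h
      rw [mk_mul, hc.orderOf_mul_eq_mul_orderOf_of_coprime hco, order_J p hp h5]
      exact dvd_mul_left _ _
    · intro c c' hcc
      by_cases h : 2 ∣ orderOf (mk p c.1) <;> by_cases h' : 2 ∣ orderOf (mk p c'.1)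
      · simp only [h, h', dite_true, Sum.inl.injEq, Subtype.mk.injEq] at hcc
        exact Subtype.ext hcc
      · simp [h, h'] at hcc
      · simp [h, h'] at hcc
      · simp only [h, h', dite_false, Sum.inr.injEq, Subtype.mk.injEq] at hcc
        exact Subtype.ext (mul_right_cancel hcc)
  rw [Nat.card_sum] at h1
  omega

/-- matrices commuting with `J` -/
theorem comm_J (p : ℕ) (c : SS p) (h : c * JJ p = JJ p * c) :
    (c : Matrix (Fin 2) (Fin 2) (ZMod p)) = !![c.1 0 0, c.1 0 1; -c.1 0 1, c.1 0 0] := by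
  have h1 := congrArg (fun A : SS p => (A : Matrix (Fin 2) (Fin 2) (ZMod p))) h
  simp only [Matrix.SpecialLinearGroup.coe_mul] at h1
  have h2 := congrFun (congrFun h1 0) 0
  have h3 := congrFun (congrFun h1 0) 1
  simp [JJ, Matrix.mul_apply, Fin.sum_univ_two] at h2 h3
  ext i j
  fin_cases i <;> fin_cases j <;> simp
  · linear_combination -h2
  · linear_combination -h3

theorem ne_zero_of_even (p : ℕ) (hp : p.Prime) (c : SS p) (h : c * JJ p = JJ p * c)
    (h2 : 2 ∣ orderOf (mk p c)) : c.1 0 1 ≠ 0 := by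
  have : Fact p.Prime := ⟨hp⟩
  intro h0
  have h1 := comm_J p c h
  have hdet := c.2
  rw [h1, Matrix.det_fin_two] at hdet
  simp [h0] at hdet
  have hc : c ∈ Subgroup.center (SS p) := by
    rw [Matrix.SpecialLinearGroup.mem_center_iff]
    refine ⟨c.1 0 0, by rw [Fintype.card_fin, sq]; exact hdet, ?_⟩
    rw [h1]
    ext i j
    fin_cases i <;> fin_cases j <;> simp [h0]
  have h3 : mk p c = 1 := (QuotientGroup.eq_one_iff _).2 hc
  rw [h3, orderOf_one] at h2
  omega

theorem key (p : ℕ) (hp : p.Prime) (h5 : 5 ≤ p) (h c c0 : SS p) (hc : c * JJ p = JJ p * c)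
    (hc0 : c0 * JJ p = JJ p * c0) (hne : c.1 0 1 ≠ 0) (heq : h * c = c0 * h) :
    h * JJ p = JJ p * h ∨ h * JJ p = (JJ p)⁻¹ * h := by
  have : Fact p.Prime := ⟨hp⟩
  have h1 := comm_J p c hc
  have h2 := comm_J p c0 hc0
  obtain ⟨a, ha⟩ : ∃ a, a = c.1 0 0 := ⟨_, rfl⟩
  obtain ⟨b, hb⟩ : ∃ b, b = c.1 0 1 := ⟨_, rfl⟩
  obtain ⟨a0, ha0⟩ : ∃ a, a = c0.1 0 0 := ⟨_, rfl⟩
  obtain ⟨b0, hb0⟩ : ∃ b, b = c0.1 0 1 := ⟨_, rfl⟩
  rw [← hb] at hne
  rw [← ha, ← hb] at h1
  rw [← ha0, ← hb0] at h2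
  have hd1 : a * a + b * b = 1 := by
    have := c.2
    rw [h1, Matrix.det_fin_two] at this
    simpa using this
  have hd2 : a0 * a0 + b0 * b0 = 1 := by
    have := c0.2
    rw [h2, Matrix.det_fin_two] at this
    simpa using this
  have h20 : (2 : ZMod p) ≠ 0 := by
    have : ((2 : ℕ) : ZMod p) ≠ 0 := by
      rw [Ne, ZMod.natCast_eq_zero_iff]
      intro h3
      have := Nat.le_of_dvd (by norm_num) h3
      omega
    exact_mod_cast this
  have htr : a = a0 := by
    have h3 : c0 = h * c * h⁻¹ := by rw [heq, mul_assoc, mul_inv_cancel, mul_one]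
    have h4 := congrArg (fun A : SS p => (A : Matrix (Fin 2) (Fin 2) (ZMod p)).trace) h3
    simp only [Matrix.SpecialLinearGroup.coe_mul] at h4
    rw [Matrix.trace_mul_comm, ← Matrix.mul_assoc, ← Matrix.SpecialLinearGroup.coe_mul,
      inv_mul_cancel, Matrix.SpecialLinearGroup.coe_one, Matrix.one_mul, h1, h2] at h4
    simp [Matrix.trace_fin_two] at h4
    have h5 : 2 * (a - a0) = 0 := by linear_combination -h4
    rcases mul_eq_zero.1 h5 with h6 | h6
    · exact absurd h6 h20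
    · exact sub_eq_zero.1 h6
  have hbb : (b0 - b) * (b0 + b) = 0 := by
    rw [← htr] at hd2
    linear_combination hd2 - hd1
  have h3 := congrArg (fun A : SS p => (A : Matrix (Fin 2) (Fin 2) (ZMod p))) heq
  simp only [Matrix.SpecialLinearGroup.coe_mul] at h3
  rw [h1, h2, ← htr] at h3
  have e00 := congrFun (congrFun h3 0) 0
  have e01 := congrFun (congrFun h3 0) 1
  have e10 := congrFun (congrFun h3 1) 0
  have e11 := congrFun (congrFun h3 1) 1
  simp only [Matrix.mul_apply, Fin.sum_univ_two, Matrix.of_apply, Matrix.cons_val', Matrix.cons_val_zero,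
    Matrix.cons_val_one, Matrix.cons_val_fin_one] at e00 e01 e10 e11
  rcases mul_eq_zero.1 hbb with h4 | h4
  · left
    have h4 : b0 = b := sub_eq_zero.1 h4
    rw [h4] at e00 e01 e10 e11
    apply Subtype.ext
    simp only [Matrix.SpecialLinearGroup.coe_mul, JJ]
    ext i j
    fin_cases i <;> fin_cases j <;> simp [Matrix.mul_apply, Fin.sum_univ_two]
    · exact mul_left_cancel₀ hne (by first | linear_combination e00 | linear_combination -e00)
    · exact mul_left_cancel₀ hne (by first | linear_combination e01 | linear_combination -e01)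
    · exact mul_left_cancel₀ hne (by first | linear_combination e10 | linear_combination -e10)
    · exact mul_left_cancel₀ hne (by first | linear_combination e11 | linear_combination -e11)
  · right
    have h4 : b0 = -b := eq_neg_of_add_eq_zero_left h4
    rw [h4] at e00 e01 e10 e11
    apply Subtype.ext
    simp only [Matrix.SpecialLinearGroup.coe_mul, Matrix.SpecialLinearGroup.coe_inv, JJ,
      Matrix.adjugate_fin_two]
    ext i j
    fin_cases i <;> fin_cases j <;> simp [Matrix.mul_apply, Fin.sum_univ_two]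
    · exact mul_left_cancel₀ hne (by first | linear_combination e00 | linear_combination -e00)
    · exact mul_left_cancel₀ hne (by first | linear_combination e01 | linear_combination -e01)
    · exact mul_left_cancel₀ hne (by first | linear_combination e10 | linear_combination -e10)
    · exact mul_left_cancel₀ hne (by first | linear_combination e11 | linear_combination -e11)

/-- the normalizer of the centralizer -/
theorem card_N (p : ℕ) (hp : p.Prime) :
    Nat.card {h : SS p // h * JJ p = JJ p * h ∨ h * JJ p = (JJ p)⁻¹ * h} ≤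
      2 * Nat.card {c : SS p // c * JJ p = JJ p * c} := by
  have : Fact p.Prime := ⟨hp⟩
  classical
  by_cases hex : ∃ h1 : SS p, h1 * JJ p = (JJ p)⁻¹ * h1
  · obtain ⟨h1, hh1⟩ := hex
    have h2 : Nat.card {h : SS p // h * JJ p = JJ p * h ∨ h * JJ p = (JJ p)⁻¹ * h} ≤
        Nat.card ({c : SS p // c * JJ p = JJ p * c} ⊕ {c : SS p // c * JJ p = JJ p * c}) := by
      refine Nat.card_le_card_of_injective (fun h => if h2 : h.1 * JJ p = JJ p * h.1 then
        Sum.inl ⟨h.1, h2⟩ else Sum.inr ⟨h1⁻¹ * h.1, ?_⟩) ?_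
      · have h3 : h.1 * JJ p = (JJ p)⁻¹ * h.1 := h.2.resolve_left h2
        have h4 : h1⁻¹ * (JJ p)⁻¹ = JJ p * h1⁻¹ := by
          calc h1⁻¹ * (JJ p)⁻¹ = h1⁻¹ * ((JJ p)⁻¹ * h1) * h1⁻¹ := by group
            _ = JJ p * h1⁻¹ := by rw [← hh1]; group
        rw [mul_assoc, h3, ← mul_assoc, h4, mul_assoc]
      · intro c c' hcc
        by_cases h : c.1 * JJ p = JJ p * c.1 <;> by_cases h' : c'.1 * JJ p = JJ p * c'.1
        · simp only [h, h', dite_true, Sum.inl.injEq, Subtype.mk.injEq] at hcc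
          exact Subtype.ext hcc
        · simp [h, h'] at hcc
        · simp [h, h'] at hcc
        · simp only [h, h', dite_false, Sum.inr.injEq, Subtype.mk.injEq] at hcc
          exact Subtype.ext (mul_left_cancel hcc)
    rw [Nat.card_sum] at h2
    omega
  · have h2 : Nat.card {h : SS p // h * JJ p = JJ p * h ∨ h * JJ p = (JJ p)⁻¹ * h} ≤
        Nat.card {c : SS p // c * JJ p = JJ p * c} := by
      refine Nat.card_le_card_of_injective (fun h => ⟨h.1, h.2.resolve_right
        (fun h3 => hex ⟨h.1, h3⟩)⟩) ?_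
      intro c c' hcc
      have := congrArg (fun z => z.1) hcc
      exact Subtype.ext this
    omega

theorem order_conj (p : ℕ) (g c : SS p) : orderOf (mk p (g * c * g⁻¹)) = orderOf (mk p c) := by
  rw [mk_mul, mk_mul, mk_inv]
  exact (MulAut.conj (mk p g)).orderOf_eq (mk p c)

/-- counting elements of even order -/
theorem card_even (p : ℕ) (hp : p.Prime) (h5 : 5 ≤ p) :
    Nat.card (SS p) ≤ 4 * Nat.card {g : SS p // 2 ∣ orderOf (mk p g)} := by
  have : Fact p.Prime := ⟨hp⟩
  obtain ⟨Φ, hΦ⟩ : ∃ Φ : SS p × {c : SS p // c * JJ p = JJ p * c ∧ 2 ∣ orderOf (mk p c)} →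
      {g : SS p // 2 ∣ orderOf (mk p g)}, ∀ x, (Φ x).1 = x.1 * x.2.1 * x.1⁻¹ :=
    ⟨fun x => ⟨x.1 * x.2.1 * x.1⁻¹, by rw [order_conj]; exact x.2.2.2⟩, fun x => rfl⟩
  have hfib : ∀ e, Nat.card {x // Φ x = e} ≤
      Nat.card {h : SS p // h * JJ p = JJ p * h ∨ h * JJ p = (JJ p)⁻¹ * h} := by
    intro e
    by_cases hex : ∃ x, Φ x = e
    · obtain ⟨x0, hx0⟩ := hex
      have hx : ∀ x : {x // Φ x = e}, (x0.1⁻¹ * x.1.1) * x.1.2.1 = x0.2.1 * (x0.1⁻¹ * x.1.1) := by
        intro x
        have h1 : x.1.1 * x.1.2.1 * x.1.1⁻¹ = x0.1 * x0.2.1 * x0.1⁻¹ := by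
          rw [← hΦ, ← hΦ, x.2, hx0]
        calc (x0.1⁻¹ * x.1.1) * x.1.2.1 = x0.1⁻¹ * (x.1.1 * x.1.2.1 * x.1.1⁻¹) * x.1.1 := by group
          _ = x0.2.1 * (x0.1⁻¹ * x.1.1) := by rw [h1]; group
      refine Nat.card_le_card_of_injective (fun x => ⟨x0.1⁻¹ * x.1.1,
        key p hp h5 _ _ _ x.1.2.2.1 x0.2.2.1 (ne_zero_of_even p hp _ x.1.2.2.1 x.1.2.2.2)
          (hx x)⟩) ?_
      intro x y hxy
      have h1 : x.1.1 = y.1.1 := mul_left_cancel (congrArg Subtype.val hxy)
      have h2 : x.1.1 * x.1.2.1 * x.1.1⁻¹ = y.1.1 * y.1.2.1 * y.1.1⁻¹ := by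
        rw [← hΦ, ← hΦ, x.2, y.2]
      rw [h1] at h2
      have h3 : x.1.2.1 = y.1.2.1 := mul_left_cancel (mul_right_cancel h2)
      exact Subtype.ext (Prod.ext h1 (Subtype.ext h3))
    · have : IsEmpty {x // Φ x = e} := ⟨fun x => hex ⟨x.1, x.2⟩⟩
      rw [Nat.card_of_isEmpty]
      exact Nat.zero_le _
  have h1 : Nat.card (SS p × {c : SS p // c * JJ p = JJ p * c ∧ 2 ∣ orderOf (mk p c)}) ≤
      Nat.card {g : SS p // 2 ∣ orderOf (mk p g)} *
        Nat.card {h : SS p // h * JJ p = JJ p * h ∨ h * JJ p = (JJ p)⁻¹ * h} := by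
    rw [← Nat.card_congr (Equiv.sigmaFiberEquiv Φ)]
    have : Fintype {g : SS p // 2 ∣ orderOf (mk p g)} := Fintype.ofFinite _
    rw [Nat.card_sigma]
    refine (Finset.sum_le_sum fun e _ => hfib e).trans ?_
    rw [Finset.sum_const, Finset.card_univ, smul_eq_mul,
      ← Nat.card_eq_fintype_card (α := {g : SS p // 2 ∣ orderOf (mk p g)})]
  rw [Nat.card_prod] at h1
  have h2 := card_N p hp
  have h3 := odd_le p hp h5
  have h4 : 0 < Nat.card {c : SS p // c * JJ p = JJ p * c ∧ 2 ∣ orderOf (mk p c)} := by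
    have : Nonempty {c : SS p // c * JJ p = JJ p * c ∧ 2 ∣ orderOf (mk p c)} :=
      ⟨⟨JJ p, rfl, by rw [order_J p hp h5]⟩⟩
    exact Nat.card_pos
  generalize Nat.card {c : SS p // c * JJ p = JJ p * c ∧ 2 ∣ orderOf (mk p c)} = T at *
  generalize Nat.card {c : SS p // c * JJ p = JJ p * c} = C at *
  generalize Nat.card {h : SS p // h * JJ p = JJ p * h ∨ h * JJ p = (JJ p)⁻¹ * h} = N at *
  generalize Nat.card {g : SS p // 2 ∣ orderOf (mk p g)} = E at *
  generalize Nat.card (SS p) = S at *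
  have h5' : N ≤ 4 * T := by omega
  have h6 : S * T ≤ (4 * E) * T := by
    calc S * T ≤ E * N := h1
      _ ≤ E * (4 * T) := Nat.mul_le_mul_left _ h5'
      _ = (4 * E) * T := by ring
  exact Nat.le_of_mul_le_mul_right h6 h4

/-- Packet PSLC. -/
theorem p_pslc : PSLC := by
  intro p hp h5
  have : Fact p.Prime := ⟨hp⟩
  refine ⟨card_PSL p hp h5, ?_⟩
  have h1 := card_even p hp h5
  have h2 : Nat.card {g : SS p // 2 ∣ orderOf (mk p g)} =
      Nat.card (Subgroup.center (SS p)) * Nat.card {g : PSL2 p // 2 ∣ orderOf g} := by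
    have := Nat.card_congr (QuotientGroup.preimageMkEquivSubgroupProdSet
      (Subgroup.center (SS p)) {g : PSL2 p | 2 ∣ orderOf g})
    rw [Nat.card_prod] at this
    exact this
  have h3 := (Subgroup.center (SS p)).card_eq_card_quotient_mul_card_subgroup
  have h4 : Nat.card (PSL2 p) = Nat.card {g : PSL2 p // 2 ∣ orderOf g} + reg (PSL2 p) 2 := by
    classical
    rw [reg, ← Nat.card_sum]
    exact Nat.card_congr (Equiv.sumCompl _).symm
  rw [card_center p hp h5] at h2 h3
  have h3 : Nat.card (SS p) = Nat.card (PSL2 p) * 2 := h3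
  omega

end Pool.Agent.Helper50.RS
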