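import Pool.Agent.Helper38.RS.Goals4
import Pool.Agent.Helper51.SigLeo.Member

/-!
# Project RS (MP_fc6b1e_nt), goal RS: the theorem, from `S_PHI`, `S_P1` and `S_INF`
-/

namespace Pool.Agent.Helper50.RS

open NumberField Polynomial Module IsDedekindDomain TensorProduct Pool.Agent.Helper51.SigLeo
open Pool.Agent.Helper38.RS

/-- `e_χ(x)` is an eigenvector. -/
theorem eig_eChi {F H A : Type*} [Field F] [Field H] [Algebra F H] [FiniteDimensional F H]
    [Field A] (n : ℕ) (χ : (H ≃ₐ[F] H) →* Aˣ) (x : A ⊗[ℤ] Additive (𝓞 H)ˣ) (γ : H ≃ₐ[F] H) :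
    extEnd (unitsHom γ) (eChi n χ unitsHom x) = (χ γ : A) • eChi n χ unitsHom x := by
  classical
  unfold eChi
  rw [finsum_eq_sum_of_fintype, map_smul, map_sum, smul_comm]
  congr 1
  have h1 : ∑ g : H ≃ₐ[F] H, ((χ g⁻¹ : Aˣ) : A) • extEnd (unitsHom g) x =
      ∑ g : H ≃ₐ[F] H, ((χ (γ * g)⁻¹ : Aˣ) : A) • extEnd (unitsHom (γ * g)) x :=
    (Equiv.sum_comp (Equiv.mulLeft γ)
      fun g : H ≃ₐ[F] H ↦ ((χ g⁻¹ : Aˣ) : A) • extEnd (unitsHom g) x).symm
  rw [h1, Finset.smul_sum]
  refine Finset.sum_congr rfl fun g _ ↦ ?_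
  rw [map_smul, unitsHom_mul, extEnd_comp, smul_smul]
  congr 1
  show ((χ g⁻¹ : Aˣ) : A) = ((χ γ : Aˣ) : A) * ((χ (γ * g)⁻¹ : Aˣ) : A)
  rw [← Units.val_mul, mul_inv_rev, map_mul, mul_comm, mul_assoc, ← map_mul, inv_mul_cancel,
    map_one, mul_one]

theorem totallyComplex_of_cm {K : Type} [Field K] [NumberField K] {S : Set (K →+* ℂ)}
    (hS : IsCMType S) : IsTotallyComplex K := by
  refine ⟨fun v => ?_⟩
  rw [← InfinitePlace.not_isReal_iff_isComplex]
  rintro ⟨φ, hφ, rfl⟩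
  have h1 : ComplexEmbedding.conjugate φ = φ := ComplexEmbedding.isReal_iff.mp hφ
  have h := hS φ
  rw [h1] at h
  exact iff_not_self h

theorem two_mul_ncard_cm {K : Type} [Field K] [NumberField K] {S : Set (K →+* ℂ)}
    (hS : IsCMType S) : finrank ℚ K = 2 * S.ncard := by
  have hc : Sᶜ = ComplexEmbedding.conjugate '' S := by
    ext φ
    constructor
    · intro h
      refine ⟨ComplexEmbedding.conjugate φ, ?_, ?_⟩
      · by_contra h2
        exact h ((hS φ).mpr h2)
      · ext x; simp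
    · rintro ⟨ψ, hψ, rfl⟩
      exact (hS ψ).mp hψ
  have hinj : Function.Injective (ComplexEmbedding.conjugate : (K →+* ℂ) → (K →+* ℂ)) := by
    intro a b h
    ext x
    have h2 := RingHom.congr_fun h x
    exact (starRingEnd ℂ).injective h2
  have h1 := Set.ncard_add_ncard_compl S (Set.toFinite _) (Set.toFinite _)
  rw [hc, Set.ncard_image_of_injective _ hinj, Nat.card_eq_fintype_card,
    NumberField.Embeddings.card K ℂ] at h1
  omega

/-- the embeddings of `K` in `k` which correspond to the CM type -/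
def tset {K Ω k : Type} [Field K] [Field Ω] [Field k] (ιinf : Ω →+* ℂ) (ιp : Ω →+* k)
    (S : Set (K →+* ℂ)) : Set (K →+* k) :=
  {τ | ∃ σ : K →+* Ω, τ = ιp.comp σ ∧ ιinf.comp σ ∈ S}

theorem comp_inj {K Ω k : Type} [Field K] [Field Ω] [Field k] (ι : Ω →+* k) :
    Function.Injective (fun σ : K →+* Ω => ι.comp σ) := by
  intro σ τ h
  ext x
  exact ι.injective (RingHom.congr_fun h x)

theorem tset_ncard {K Ω k : Type} [Field K] [NumberField K] [Field Ω] [CharZero Ω]
    [IsAlgClosed Ω] [Field k] (ιinf : Ω →+* ℂ) (ιp : Ω →+* k)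
    (S : Set (K →+* ℂ)) : (tset ιinf ιp S).ncard = S.ncard := by
  have h1 : tset ιinf ιp S = (fun σ : K →+* Ω => ιp.comp σ) '' {σ | ιinf.comp σ ∈ S} := by
    ext τ
    constructor
    · rintro ⟨σ, rfl, h⟩
      exact ⟨σ, h, rfl⟩
    · rintro ⟨σ, h, rfl⟩
      exact ⟨σ, rfl, h⟩
  have h2 : S = (fun σ : K →+* Ω => ιinf.comp σ) '' {σ | ιinf.comp σ ∈ S} := by
    ext φ
    constructor
    · intro h
      obtain ⟨σ, rfl⟩ := exists_lift_embedding ιinf φ
      exact ⟨σ, h, rfl⟩
    · rintro ⟨σ, h, rfl⟩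
      exact h
  rw [h1, Set.ncard_image_of_injective _ (comp_inj ιp)]
  conv_rhs => rw [h2]
  rw [Set.ncard_image_of_injective _ (comp_inj ιinf)]

theorem tset_closed {K Ω k : Type} [Field K] [NumberField K] [Field Ω] [CharZero Ω]
    [IsAlgClosed Ω] [NormedField k] [CharZero k] [IsAlgClosed k] (ιinf : Ω →+* ℂ) (ιp : Ω →+* k)
    (S : Set (K →+* ℂ))
    (h : ∀ σ τ : K →+* Ω, (∀ x, ‖ιp (σ x)‖ = ‖ιp (τ x)‖) →
      (ιinf.comp σ ∈ S ↔ ιinf.comp τ ∈ S)) : PlaceClosed (tset ιinf ιp S) := by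
  have key : ∀ σ : K →+* Ω, ιp.comp σ ∈ tset ιinf ιp S ↔ ιinf.comp σ ∈ S := by
    intro σ
    constructor
    · rintro ⟨σ', h1, h2⟩
      rw [comp_inj ιp h1]
      exact h2
    · intro h1
      exact ⟨σ, rfl, h1⟩
  intro σ τ hn
  obtain ⟨σ', rfl⟩ := exists_lift_embedding ιp σ
  obtain ⟨τ', rfl⟩ := exists_lift_embedding ιp τ
  rw [key, key]
  exact h σ' τ' hn

section ordv

variable {M : Type} [Field M] [NumberField M]

theorem ordv_mul (w : HeightOneSpectrum (𝓞 M)) {x y : M} (hx : x ≠ 0) (hy : y ≠ 0) :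
    ordv w (x * y) = ordv w x + ordv w y := by
  have h1 : w.valuation M x ≠ 0 := (Valuation.ne_zero_iff _).mpr hx
  have h2 : w.valuation M y ≠ 0 := (Valuation.ne_zero_iff _).mpr hy
  unfold ordv
  rw [map_mul, WithZero.log_mul h1 h2]
  ring

theorem even_ordv_sq (w : HeightOneSpectrum (𝓞 M)) {x y : M} (hx : x ≠ 0) (hy : y ≠ 0) :
    Even (ordv w (y ^ 2 * x)) ↔ Even (ordv w x) := by
  have hy2 : y ^ 2 ≠ 0 := pow_ne_zero 2 hy
  have h : ordv w (y ^ 2) = ordv w y + ordv w y := by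
    rw [pow_two, ordv_mul w hy hy]
  rw [ordv_mul w hy2 hx, h]
  constructor
  · intro h1
    rcases h1 with ⟨c, hc⟩
    exact ⟨c - ordv w y, by linarith⟩
  · rintro ⟨c, hc⟩
    exact ⟨c + ordv w y, by linarith⟩

theorem not_sq_of_odd (w : HeightOneSpectrum (𝓞 M)) {x : M} (hx : ¬ Even (ordv w x)) :
    ∀ y : M, y ^ 2 ≠ x := by
  intro y hy
  by_cases h0 : y = 0
  · subst h0
    apply hx
    rw [← hy]
    simp [ordv]
  · apply hx
    rw [← hy, ← mul_one (y ^ 2), even_ordv_sq w one_ne_zero h0]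
    simp [ordv]

theorem finite_odd (x : M) (hx : x ≠ 0) :
    {w : HeightOneSpectrum (𝓞 M) | ¬ Even (ordv w x)}.Finite := by
  refine ((HeightOneSpectrum.Support.finite (𝓞 M) x).union
    (HeightOneSpectrum.Support.finite (𝓞 M) x⁻¹)).subset ?_
  intro w hw
  have hne : w.valuation M x ≠ 1 := by
    intro h1
    apply hw
    unfold ordv
    rw [h1]
    simp
  have h0 : w.valuation M x ≠ 0 := (Valuation.ne_zero_iff _).mpr hx
  rcases lt_or_gt_of_ne hne with h | h
  · right
    show 1 < w.valuation M x⁻¹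
    rw [map_inv₀]
    exact (one_lt_inv₀ (zero_lt_iff.mpr h0)).mpr h
  · left
    exact h

end ordv

/-- the degree of `M ⊔ K(r)` over `M` -/
theorem finrank_sup {K Ω : Type} [Field K] [Field Ω] [Algebra K Ω] (M H : IntermediateField K Ω)
    (r : Ω) (b : M) (hr : r ^ 2 = (b : Ω)) (hb : ∀ y : M, y ^ 2 ≠ b)
    (hH : H = M ⊔ IntermediateField.adjoin K {r}) (hle : M ≤ H) :
    @finrank M H _ _ ((IntermediateField.inclusion hle).toRingHom.toAlgebra).toModule = 2 := by
  let _ : Algebra M H := (IntermediateField.inclusion hle).toRingHom.toAlgebra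
  have h1 : finrank M (IntermediateField.adjoin M {r}) = 2 := by
    refine finrank_adjoin_sqrt (d := b) (by rw [hr]; rfl) ?_
    rintro ⟨y, hy⟩
    apply hb y
    apply Subtype.ext
    show (y : Ω) ^ 2 = (b : Ω)
    rw [← hr, ← hy]
    rfl
  have hmem : ∀ x : Ω, x ∈ IntermediateField.adjoin M {r} ↔ x ∈ H := by
    intro x
    rw [hH, ← IntermediateField.restrictScalars_adjoin_eq_sup]
    rfl
  let e : IntermediateField.adjoin M {r} ≃ₗ[M] H :=
    { toFun := fun x => ⟨x.1, (hmem _).mp x.2⟩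
      invFun := fun x => ⟨x.1, (hmem _).mpr x.2⟩
      map_add' := fun x y => rfl
      map_smul' := fun c x => rfl
      left_inv := fun x => rfl
      right_inv := fun x => rfl }
  rw [← e.finrank_eq, h1]

theorem good {K Ω k : Type} [Field K] [NumberField K] [Field Ω] [Algebra K Ω] [CharZero Ω]
    [IsAlgClosed Ω] [NormedField k] [NormedAlgebra ℚ_[2] k] [IsUltrametricDist k]
    [CompleteSpace k] [CharZero k] [IsAlgClosed k]
    (hne : Nonempty (AlgebraicClosure ℚ →+* k)) (hP1 : S_P1)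
    (ιinf : Ω →+* ℂ) (ιp : Ω →+* k) (L : IwasawaLog 2 k) (S : Set (K →+* ℂ))
    (hcl : PlaceClosed (tset ιinf ιp S))
    (M : IntermediateField K Ω) [FiniteDimensional K M] [IsGalois K M] [NumberField M]
    (χ₀ : (M ≃ₐ[K] M) →* kˣ) (m : ℕ) (δ : M ≃ₐ[K] M) (Φ : ℤ_[2][X]) (P : (ZMod 2)[X])
    (hPhi : PhiData m ((χ₀ δ : kˣ) : k) Φ P) (hδ : orderOf δ = m) (hm : finrank K M = m)
    (a : 𝓞 K) (ha : a ≠ 0) (h8 : (8 : 𝓞 K) ∣ a - 1) (r : Ω)
    (hr : r ^ 2 = algebraMap K Ω (a : K))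
    (hsq : ∀ y : M, y ^ 2 ≠ algebraMap K M (a : K))
    (hSel : ∀ x : Mˣ, Sel L (above (tset ιinf ιp S)) P δ (algebraMap K M (a : K)) x → Sq x) :
    TwistGood ιinf ιp L S M χ₀ (IntermediateField.adjoin K {r}) := by
  intro H hH χ hχ hχ₀
  have hMH : M ≤ H := hH ▸ le_sup_left
  have hrN : r ∈ IntermediateField.adjoin K {r} :=
    IntermediateField.subset_adjoin K {r} rfl
  have hrH : r ∈ H := hH ▸ (le_sup_right : IntermediateField.adjoin K {r} ≤ _) hrN
  have hd := finrank_sup M H r (algebraMap K M (a : K)) hr hsq hH hMH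
  let _ : Algebra M H := (IntermediateField.inclusion hMH).toRingHom.toAlgebra
  have htower : IsScalarTower K M H := IsScalarTower.of_algebraMap_eq fun x => rfl
  have hfin1 : FiniteDimensional M H := FiniteDimensional.of_finrank_pos (by rw [hd]; norm_num)
  have hfin2 : FiniteDimensional K H := Module.Finite.trans M H
  have hnf : NumberField H := NumberField.of_module_finite K H
  have hNK : finrank K (IntermediateField.adjoin K {r}) = 2 := by
    refine finrank_adjoin_sqrt hr ?_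
    rintro ⟨y, hy⟩
    apply hsq (algebraMap K M y)
    rw [← map_pow]
    congr 1
    apply (algebraMap K Ω).injective
    rw [map_pow, hy, hr]
  have hq : Algebra.IsQuadraticExtension K (IntermediateField.adjoin K {r}) := ⟨hNK⟩
  have hnorm : Normal K H := by rw [hH]; infer_instance
  let s : H := ⟨r, hrH⟩
  have hs2 : s ^ 2 = algebraMap M H (algebraMap K M (a : K)) := by
    apply Subtype.ext
    exact hr
  have hsM : s ∉ (algebraMap M H).range := by
    rintro ⟨y, hy⟩
    apply hsq y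
    apply (algebraMap M H).injective
    rw [map_pow, hy, hs2]
  obtain ⟨τ, hτ⟩ := exists_gal (K := M) (H := H) hd
  have hτs : τ s = -s := gal_apply_sqrt hd hs2 hsM τ hτ
  have hext : ∀ g h : H ≃ₐ[K] H, (∀ x : M, g (algebraMap M H x) = h (algebraMap M H x)) →
      g s = h s → g = h := by
    intro g h h1 h2
    ext y
    obtain ⟨α, β, hy⟩ := exists_coords hd hsM y
    rw [hy, map_add, map_mul, map_add, map_mul, h1, h1, h2]
  obtain ⟨δ', hδ's, hδ'M⟩ : ∃ δ' : H ≃ₐ[K] H, δ' s = s ∧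
      ∀ x : M, δ' (algebraMap M H x) = algebraMap M H (δ x) := by
    have h1 : ∀ x : M, δ.liftNormal H (algebraMap M H x) = algebraMap M H (δ x) :=
      fun x => δ.liftNormal_commutes H x
    have h2 : (δ.liftNormal H s) ^ 2 = s ^ 2 := by
      rw [← map_pow, hs2, h1, AlgEquiv.commutes]
    rcases sq_eq_sq_iff_eq_or_eq_neg.mp h2 with h3 | h3
    · exact ⟨δ.liftNormal H, h3, h1⟩
    · refine ⟨δ.liftNormal H * τ.restrictScalars K, ?_, ?_⟩
      · show δ.liftNormal H (τ s) = s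
        rw [hτs, map_neg, h3, neg_neg]
      · intro x
        show δ.liftNormal H (τ (algebraMap M H x)) = _
        rw [AlgEquiv.commutes, h1]
  set γ : H ≃ₐ[K] H := τ.restrictScalars K with hγdef
  have hγs : γ s = -s := hτs
  have hγM : ∀ x : M, γ (algebraMap M H x) = algebraMap M H x := fun x => τ.commutes x
  have hγ2 : γ * γ = 1 := by
    refine hext _ _ ?_ ?_
    · intro x
      show γ (γ (algebraMap M H x)) = algebraMap M H x
      rw [hγM, hγM]
    · show γ (γ s) = s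
      rw [hγs, map_neg, hγs, neg_neg]
  have hγ1 : γ ≠ 1 := by
    intro h1
    apply hτ
    ext x
    have := AlgEquiv.congr_fun h1 x
    exact congrArg Subtype.val this
  have hδpow : ∀ n : ℕ, (δ' ^ n) s = s ∧
      ∀ x : M, (δ' ^ n) (algebraMap M H x) = algebraMap M H ((δ ^ n) x) := by
    intro n
    induction n with
    | zero => exact ⟨rfl, fun x => rfl⟩
    | succ n ih =>
      refine ⟨?_, fun x => ?_⟩
      · rw [pow_succ]
        show (δ' ^ n) (δ' s) = s
        rw [hδ's, ih.1]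
      · rw [pow_succ, pow_succ]
        show (δ' ^ n) (δ' (algebraMap M H x)) = algebraMap M H ((δ ^ n) (δ x))
        rw [hδ'M, ih.2]
  have hδ'm : δ' ^ m = 1 := by
    refine hext _ _ ?_ ?_
    · intro x
      rw [(hδpow m).2, ← hδ, pow_orderOf_eq_one]
      rfl
    · exact (hδpow m).1
  -- the values of χ
  have hχγ : ((χ γ : kˣ) : k) = -1 := by
    have h1 : ((χ γ : kˣ) : k) ^ 2 = 1 := by
      rw [pow_two, ← Units.val_mul, ← map_mul, hγ2, map_one, Units.val_one]
    rcases sq_eq_sq_iff_eq_or_eq_neg.mp (h1.trans (one_pow 2).symm) with h2 | h2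
    · exfalso
      apply hγ1
      apply hχ
      rw [map_one]
      exact Units.ext h2
    · exact h2
  have hχδ : ((χ δ' : kˣ) : k) = ((χ₀ δ : kˣ) : k) := by
    have h1 : χ δ' ^ 2 = χ₀ δ ^ 2 := by
      apply hχ₀
      intro x y hxy
      have hy : y = algebraMap M H x := Subtype.ext hxy
      rw [hy, hδ'M]
      rfl
    have h2 : χ δ' ^ m = 1 := by rw [← map_pow, hδ'm, map_one]
    have h3 : χ₀ δ ^ m = 1 := by rw [← map_pow, ← hδ, pow_orderOf_eq_one, map_one]
    obtain ⟨j, hj⟩ := hPhi.odd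
    have h4 : χ δ' = χ₀ δ := by
      calc χ δ' = χ δ' ^ m * χ δ' := by rw [h2, one_mul]
        _ = (χ δ' ^ 2) ^ (j + 1) := by rw [← pow_succ, ← pow_mul, hj]; ring_nf
        _ = (χ₀ δ ^ 2) ^ (j + 1) := by rw [h1]
        _ = χ₀ δ ^ m * χ₀ δ := by rw [← pow_succ, ← pow_mul, hj]; ring_nf
        _ = χ₀ δ := by rw [h3, one_mul]
    rw [h4]
  have hD : HData K M H m δ γ δ' (tset ιinf ιp S) a s :=
    { order := hδ
      deg := hm
      degH := hd
      ne := ha
      adm := h8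
      sq := hs2
      γs := hγs
      γM := hγM
      δs := hδ's
      δM := hδ'M
      closed := hcl }
  intro x hx
  refine hP1 k hne L K M H m δ γ δ' (tset ιinf ιp S) a s ((χ₀ δ : kˣ) : k) Φ P hPhi hD hSel
    (eChi (finrank K H) χ unitsHom x) ?_ ?_ ?_
  · rw [eig_eChi, hχγ, neg_smul, one_smul]
  · rw [eig_eChi, hχδ]
  · intro τ' hτ'
    apply hx
    obtain ⟨σ, hσ⟩ := exists_lift_embedding ιp τ'
    obtain ⟨σ₀, h1, h2⟩ := hτ'
    refine ⟨σ, ?_, ?_⟩
    · have h3 : σ.comp (algebraMap K H) = σ₀ := by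
        apply comp_inj ιp
        show ιp.comp (σ.comp (algebraMap K H)) = ιp.comp σ₀
        rw [← h1, ← hσ]
        rfl
      rw [h3]
      exact h2
    · rw [hσ]

/-- the primes at which the generators of the quadratic extension `N` have odd valuation -/
def badp {K Ω : Type} [Field K] [NumberField K] [Field Ω] [Algebra K Ω]
    (M : IntermediateField K Ω) [NumberField M] (N : IntermediateField K Ω) :
    Set (HeightOneSpectrum (𝓞 M)) :=
  {w | ∃ a : K, a ≠ 0 ∧ (∀ y : K, y ^ 2 ≠ a) ∧ (∃ r : N, r ^ 2 = algebraMap K N a) ∧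
    ¬ Even (ordv w (algebraMap K M a))}

theorem badp_finite {K Ω : Type} [Field K] [NumberField K] [Field Ω] [Algebra K Ω]
    (M : IntermediateField K Ω) [NumberField M] (N : IntermediateField K Ω)
    (hN : finrank K N = 2) : (badp M N).Finite := by
  rcases (badp M N).eq_empty_or_nonempty with h | ⟨w₀, a₀, h0, h1, ⟨r₀, h2⟩, h3⟩
  · rw [h]; exact Set.finite_empty
  · refine (finite_odd (algebraMap K M a₀) ?_).subset ?_
    · rwa [Ne, FaithfulSMul.algebraMap_eq_zero_iff]
    · rintro w ⟨a, g0, g1, ⟨r, g2⟩, g3⟩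
      have hr₀ : r₀ ∉ (algebraMap K N).range := by
        rintro ⟨y, hy⟩
        apply h1 y
        apply (algebraMap K N).injective
        rw [map_pow, hy, h2]
      obtain ⟨y, hy | hy⟩ := sq_in_base hN hr₀ h2 g2
      · exact absurd hy.2.symm (g1 y)
      · have hy0 : y ≠ 0 := by
          rintro rfl
          apply g0
          rw [hy.2]
          ring
        intro he
        apply g3
        rw [hy.2, map_mul, map_pow, even_ordv_sq]
        · exact he
        · rwa [Ne, FaithfulSMul.algebraMap_eq_zero_iff]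
        · rwa [Ne, FaithfulSMul.algebraMap_eq_zero_iff]

theorem nonempty_hom (F A : Type) [Field F] [Field A] [Algebra F A] [IsAlgClosed A] :
    Nonempty (AlgebraicClosure F →+* A) :=
  ⟨(IsAlgClosed.lift (R := F) (S := AlgebraicClosure F) (M := A)).toRingHom⟩

theorem s_rs (h1 : S_PHI) (h2 : S_P1) (h3 : S_INF) : Pool.Agent.Helper38.RS.S_RS := by
  intro K _ _ ιinf ιp L S hS hord M _ _ χ₀ hχ₀ hodd hlt
  have hchar : CharZero (AlgebraicClosure K) :=
    charZero_of_injective_algebraMap (algebraMap K (AlgebraicClosure K)).injective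
  have htc : IsTotallyComplex K := totallyComplex_of_cm hS
  have hnf : NumberField M := NumberField.of_module_finite K M
  have hne : Nonempty (AlgebraicClosure ℚ →+* ℂ_[2]) := nonempty_hom ℚ ℂ_[2]
  have hcl : PlaceClosed (tset ιinf ιp S) := tset_closed ιinf ιp S hord
  have hcard : finrank ℚ K = 2 * (tset ιinf ιp S).ncard := by
    rw [tset_ncard, two_mul_ncard_cm hS]
  have hinj : Function.Injective ((Units.coeHom ℂ_[2]).comp χ₀) := by
    intro x y hxy
    apply hχ₀
    exact Units.ext hxy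
  have hcyc : IsCyclic (M ≃ₐ[K] M) := isCyclic_of_injective_ringHom _ hinj
  obtain ⟨δ, hδ⟩ := IsCyclic.exists_generator (α := (M ≃ₐ[K] M))
  have horder : orderOf δ = finrank K M := by
    rw [orderOf_eq_card_of_forall_mem_zpowers hδ, IsGalois.card_aut_eq_finrank]
  have hprim : IsPrimitiveRoot ((χ₀ δ : ℂ_[2]ˣ) : ℂ_[2]) (finrank K M) := by
    have h4 : orderOf ((χ₀ δ : ℂ_[2]ˣ) : ℂ_[2]) = finrank K M := by
      rw [← horder]
      exact orderOf_injective ((Units.coeHom ℂ_[2]).comp χ₀) hinj δ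
    rw [← h4]
    exact IsPrimitiveRoot.orderOf _
  obtain ⟨Φ, P, hPhi⟩ := h1 ℂ_[2] (finrank K M) _ hodd hlt hprim
  intro hfin
  set 𝒩 : Set (IntermediateField K (AlgebraicClosure K)) :=
    {N : IntermediateField K (AlgebraicClosure K) | finrank K N = 2 ∧
      TwistGood ιinf ιp L S M χ₀ N} with h𝒩
  have hZ : (⋃ N ∈ 𝒩, badp M N).Finite :=
    hfin.biUnion fun N hN => badp_finite M N hN.1
  obtain ⟨a, ha, h8, hSel, w, hwZ, hwodd⟩ := h3 ℂ_[2] hne L K M (finrank K M) δ _ Φ P hPhi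
    horder rfl (tset ιinf ιp S) hcl hcard _ hZ
  obtain ⟨r, hr⟩ := IsAlgClosed.exists_pow_nat_eq
    (algebraMap K (AlgebraicClosure K) (a : K)) (n := 2) (by norm_num)
  have hsqM : ∀ y : M, y ^ 2 ≠ algebraMap K M (a : K) := not_sq_of_odd w hwodd
  have hsqK : ∀ y : K, y ^ 2 ≠ (a : K) := by
    intro y hy
    apply hsqM (algebraMap K M y)
    rw [← map_pow, hy]
  have hgood := good hne h2 ιinf ιp L S hcl M χ₀ (finrank K M) δ Φ P hPhi horder rfl a ha h8 r hr
    hsqM hSel
  have hN2 : finrank K (IntermediateField.adjoin K {r}) = 2 := by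
    refine finrank_adjoin_sqrt hr ?_
    rintro ⟨y, hy⟩
    apply hsqK y
    apply (algebraMap K (AlgebraicClosure K)).injective
    rw [map_pow, hy, hr]
  have hmem : IntermediateField.adjoin K {r} ∈ 𝒩 := ⟨hN2, hgood⟩
  apply hwZ
  refine Set.mem_biUnion hmem ⟨(a : K), ?_, hsqK, ⟨⟨r, ?_⟩, ?_⟩, hwodd⟩
  · intro h0
    apply ha
    exact RingOfIntegers.coe_eq_zero_iff.mp h0
  · exact IntermediateField.subset_adjoin K {r} rfl
  · apply Subtype.ext
    exact hr

end Pool.Agent.Helper50.RS
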